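import Pool.Agent.helper15.P2.SpecI

/-!
# Row p2:FAT
-/

set_option autoImplicit false

open scoped ContDiff Topology ComplexConjugate
open MeasureTheory Filter Set Metric

namespace Pool.Agent.P2I

open Pool.Agent.P2

theorem FAT_lap (g : ℂ → ℝ) (z : ℂ) : lap g z = (1 / 4) * (fderiv ℝ (fderiv ℝ g) z 1 1 +
    fderiv ℝ (fderiv ℝ g) z Complex.I Complex.I) := by
  unfold lap
  rw [iteratedFDeriv_two_apply, iteratedFDeriv_two_apply]
  rfl

theorem FAT_lap_zero (χ : ℂ → ℝ) (z : ℂ) (hz : z ∉ tsupport χ) : lap χ z = 0 := by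
  have h1 : ∀ v : ℂ, fderiv ℝ (fderiv ℝ χ) z v v = 0 := by
    intro v
    have h2 : fderiv ℝ (fderiv ℝ χ) z = 0 := by
      by_contra h3
      have h4 := support_fderiv_subset (𝕜 := ℝ) (f := fderiv ℝ χ) h3
      exact hz (tsupport_fderiv_subset ℝ h4)
    rw [h2]
    rfl
  rw [FAT_lap, h1, h1]
  ring

theorem FAT_lap_cont (χ : ℂ → ℝ) (hχ : ContDiff ℝ ∞ χ) : Continuous (lap χ) := by
  have hχ1 : ContDiff ℝ ∞ (fderiv ℝ χ) := hχ.fderiv_right (by simp)
  have hχ2 : ContDiff ℝ ∞ (fderiv ℝ (fderiv ℝ χ)) := hχ1.fderiv_right (by simp)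
  have h1 : ∀ v : ℂ, Continuous (fun z => fderiv ℝ (fderiv ℝ χ) z v v) := fun v =>
    (hχ2.continuous.clm_apply continuous_const).clm_apply continuous_const
  have h2 : lap χ = fun z => (1 / 4) * (fderiv ℝ (fderiv ℝ χ) z 1 1 +
      fderiv ℝ (fderiv ℝ χ) z Complex.I Complex.I) := funext (FAT_lap χ)
  rw [h2]
  exact continuous_const.mul ((h1 1).add (h1 Complex.I))

/-- the average over a disc with a fixed denominator -/
theorem FAT_avg (ψ : ℂ → ℝ) (z : ℂ) (s : ℝ) :
    (⨍ x in ball z s, ψ x) = (volume.real (ball (0 : ℂ) s))⁻¹ * ∫ x in ball z s, ψ x := by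
  rw [setAverage_eq, smul_eq_mul]
  have h : volume.real (ball z s) = volume.real (ball (0 : ℂ) s) := by
    unfold Measure.real
    rw [Complex.volume_ball, Complex.volume_ball]
  rw [h]

theorem FAT_swap (χ ψ : ℂ → ℝ) (hχ : Integrable χ) (hψ : Integrable ψ) (s : ℝ) :
    Integrable (fun z => χ z * ⨍ x in ball z s, ψ x) ∧
      ∫ z, χ z * (⨍ x in ball z s, ψ x) = ∫ x, ψ x * (⨍ z in ball x s, χ z) := by
  have hS : MeasurableSet {p : ℂ × ℂ | dist p.1 p.2 < s} :=
    measurableSet_lt measurable_dist measurable_const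
  obtain ⟨F, hF⟩ : ∃ F : ℂ → ℂ → ℝ, F = fun z x =>
      ({p : ℂ × ℂ | dist p.1 p.2 < s}.indicator (fun p => χ p.1 * ψ p.2)) (z, x) := ⟨_, rfl⟩
  have hFi : Integrable (Function.uncurry F) (volume.prod volume) := by
    have h1 := (hχ.mul_prod hψ).indicator hS
    rw [hF]
    exact h1
  have hF1 : ∀ z x, F z x = χ z * (ball z s).indicator ψ x := by
    intro z x
    rw [hF]
    by_cases h : dist z x < s
    · have h1 : (z, x) ∈ {p : ℂ × ℂ | dist p.1 p.2 < s} := h
      have h2 : x ∈ ball z s := by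
        rw [mem_ball, dist_comm]
        exact h
      show ({p : ℂ × ℂ | dist p.1 p.2 < s}.indicator (fun p => χ p.1 * ψ p.2)) (z, x) = _
      rw [Set.indicator_of_mem h1, Set.indicator_of_mem h2]
    · have h1 : (z, x) ∉ {p : ℂ × ℂ | dist p.1 p.2 < s} := h
      have h2 : x ∉ ball z s := by
        rw [mem_ball, dist_comm]
        exact h
      show ({p : ℂ × ℂ | dist p.1 p.2 < s}.indicator (fun p => χ p.1 * ψ p.2)) (z, x) = _
      rw [Set.indicator_of_notMem h1, Set.indicator_of_notMem h2, mul_zero]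
  have hF2 : ∀ z x, F z x = ψ x * (ball x s).indicator χ z := by
    intro z x
    rw [hF1]
    by_cases h : dist z x < s
    · have h2 : x ∈ ball z s := by
        rw [mem_ball, dist_comm]
        exact h
      have h3 : z ∈ ball x s := h
      rw [Set.indicator_of_mem h3, Set.indicator_of_mem h2, mul_comm]
    · have h2 : x ∉ ball z s := by
        rw [mem_ball, dist_comm]
        exact h
      have h3 : z ∉ ball x s := h
      rw [Set.indicator_of_notMem h3, Set.indicator_of_notMem h2, mul_zero, mul_zero]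
  have h1 : ∀ z, ∫ x, F z x = χ z * ∫ x in ball z s, ψ x := by
    intro z
    simp only [hF1]
    rw [integral_const_mul, integral_indicator measurableSet_ball]
  have h2 : ∀ x, ∫ z, F z x = ψ x * ∫ z in ball x s, χ z := by
    intro x
    simp only [hF2]
    rw [integral_const_mul, integral_indicator measurableSet_ball]
  have h3 : (fun z => χ z * ⨍ x in ball z s, ψ x) =
      fun z => (volume.real (ball (0 : ℂ) s))⁻¹ * ∫ x, F z x := by
    funext z
    rw [FAT_avg, h1]
    ring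
  have h4 : (fun x => ψ x * ⨍ z in ball x s, χ z) =
      fun x => (volume.real (ball (0 : ℂ) s))⁻¹ * ∫ z, F z x := by
    funext x
    rw [FAT_avg, h2]
    ring
  constructor
  · rw [h3]
    exact (hFi.integral_prod_left).const_mul _
  · rw [h3, h4, integral_const_mul, integral_const_mul, integral_integral_swap hFi]

/-- Row FAT -/
theorem FAT (hAVG : AVG_stmt) : FAT_stmt := by
  intro Ω φ g M hΩ hφm hgm hφM hg0 hA hB χ hχ hχc hχΩ hχ0
  have hK : IsCompact (tsupport χ) := hχc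
  obtain ⟨r, hr0, hr⟩ := hK.exists_cthickening_subset_open hΩ hχΩ
  obtain ⟨δ, hδ, hA'⟩ := hA (tsupport χ) hK hχΩ
  obtain ⟨K', hK'⟩ : ∃ K' : Set ℂ, K' = cthickening r (tsupport χ) := ⟨_, rfl⟩
  have hK'c : IsCompact K' := by
    rw [hK']
    exact hK.cthickening
  have hK'm : MeasurableSet K' := hK'c.isClosed.measurableSet
  have hK'Ω : K' ⊆ Ω := by rw [hK']; exact hr
  have hKK' : tsupport χ ⊆ K' := by
    rw [hK']
    exact self_subset_cthickening _
  obtain ⟨ψ, hψ⟩ : ∃ ψ : ℂ → ℝ, ψ = K'.indicator φ := ⟨_, rfl⟩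
  have hψK : ∀ z ∈ K', ψ z = φ z := fun z hz => by rw [hψ, Set.indicator_of_mem hz]
  have hψb : ∀ z, ‖ψ z‖ ≤ |M| := by
    intro z
    rw [hψ]
    by_cases hz : z ∈ K'
    · rw [Set.indicator_of_mem hz]
      exact (hφM z (hK'Ω hz)).trans (le_abs_self M)
    · rw [Set.indicator_of_notMem hz, norm_zero]
      exact abs_nonneg M
  have hψi : Integrable ψ := by
    rw [hψ, integrable_indicator_iff hK'm]
    refine Measure.integrableOn_of_bounded (M := M) hK'c.measure_lt_top.ne
      hφm.aestronglyMeasurable ?_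
    rw [ae_restrict_iff' hK'm]
    exact Eventually.of_forall fun z hz => hφM z (hK'Ω hz)
  have hχi : Integrable χ := hχ.continuous.integrable_of_hasCompactSupport hχc
  have hχout : ∀ z, z ∉ tsupport χ → χ z = 0 := fun z hz => image_eq_zero_of_notMem_tsupport hz
  -- small discs
  have hball : ∀ z ∈ tsupport χ, ∀ s : ℝ, s < r → ball z s ⊆ K' := by
    intro z hz s hs x hx
    rw [hK']
    exact mem_cthickening_of_dist_le x z r _ hz ((mem_ball.1 hx).le.trans hs.le)
  have havg : ∀ z ∈ tsupport χ, ∀ s : ℝ, s < r →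
      (⨍ x in ball z s, ψ x) = ⨍ x in ball z s, φ x := by
    intro z hz s hs
    rw [FAT_avg, FAT_avg]
    congr 1
    exact setIntegral_congr_fun measurableSet_ball fun x hx => hψK x (hball z hz s hs hx)
  -- the sequence of radii
  obtain ⟨c, hc⟩ : ∃ c : ℝ, c = min r δ / 2 := ⟨_, rfl⟩
  have hc0 : 0 < c := by
    rw [hc]
    exact half_pos (lt_min hr0 hδ)
  have hcr : c < r := by
    rw [hc]
    have h1 := min_le_left r δ
    have h2 : 0 < min r δ := lt_min hr0 hδ
    linarith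
  have hcδ : c < δ := by
    rw [hc]
    have h1 := min_le_right r δ
    have h2 : 0 < min r δ := lt_min hr0 hδ
    linarith
  obtain ⟨s, hs⟩ : ∃ s : ℕ → ℝ, ∀ n, s n = c / ((n : ℝ) + 1) := ⟨fun n => c / ((n : ℝ) + 1), fun n => rfl⟩
  have hs0 : ∀ n, 0 < s n := by
    intro n
    rw [hs]
    positivity
  have hsc : ∀ n, s n ≤ c := by
    intro n
    rw [hs]
    exact div_le_self hc0.le (by linarith [(Nat.cast_nonneg n : (0 : ℝ) ≤ n)])
  have hst : Tendsto s atTop (𝓝 0) := by
    have h1 : s = fun n : ℕ => c * (1 / ((n : ℝ) + 1)) := by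
      funext n
      rw [hs]
      ring
    rw [h1]
    have h2 := (tendsto_one_div_add_atTop_nhds_zero_nat (𝕜 := ℝ)).const_mul c
    rwa [mul_zero] at h2
  -- bounds and integrability
  have hlc := FAT_lap_cont χ hχ
  have hlz : ∀ z, z ∉ tsupport χ → lap χ z = 0 := FAT_lap_zero χ
  have hψm : AEStronglyMeasurable ψ volume := hψi.aestronglyMeasurable
  have hi1 : Integrable (fun x => ψ x * χ x) :=
    hχi.bdd_mul hψm (Eventually.of_forall hψb)
  have hli : Integrable (lap χ) := by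
    refine hlc.integrable_of_hasCompactSupport ?_
    refine hK.of_isClosed_subset (isClosed_tsupport _) ?_
    refine closure_minimal ?_ (isClosed_tsupport χ)
    intro z hz
    by_contra hcon
    exact hz (hlz z hcon)
  have hi2 : Integrable (fun x => ψ x * lap χ x) :=
    hli.bdd_mul hψm (Eventually.of_forall hψb)
  have hi3 : ∀ n, Integrable (fun x => ψ x * ⨍ z in ball x (s n), χ z) := fun n =>
    (FAT_swap ψ χ hψi hχi (s n)).1
  have hi4 : ∀ n, Integrable (fun z => χ z * ⨍ x in ball z (s n), ψ x) := fun n =>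
    (FAT_swap χ ψ hχi hψi (s n)).1
  obtain ⟨b, hb⟩ : ∃ b : ℕ → ℂ → ℝ, ∀ n z, b n z =
      2 / s n ^ 2 * (χ z * (⨍ x in ball z (s n), ψ x) - ψ z * χ z) := ⟨_, fun n z => rfl⟩
  have hbi : ∀ n, Integrable (b n) := by
    intro n
    have h1 : b n = fun z => 2 / s n ^ 2 * (χ z * (⨍ x in ball z (s n), ψ x) - ψ z * χ z) :=
      funext (hb n)
    rw [h1]
    exact ((hi4 n).sub hi1).const_mul _
  have hb0 : ∀ n z, 0 ≤ b n z := by
    intro n z
    rw [hb]
    by_cases hz : z ∈ tsupport χ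
    · have h1 := hA' z hz (s n) (hs0 n) ((hsc n).trans_lt hcδ)
      rw [havg z hz (s n) ((hsc n).trans_lt hcr), hψK z (hKK' hz)]
      have h2 : 0 ≤ χ z * ((⨍ x in ball z (s n), φ x) - φ z) :=
        mul_nonneg (hχ0 z) (by linarith)
      have h3 : 0 ≤ 2 / s n ^ 2 := by positivity
      refine mul_nonneg h3 ?_
      have h4 : χ z * (⨍ x in ball z (s n), φ x) - φ z * χ z =
          χ z * ((⨍ x in ball z (s n), φ x) - φ z) := by ring
      rw [h4]
      exact h2
    · rw [hχout z hz]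
      simp
  -- the limit of the integrals
  have hI : ∀ n, ∫ z, b n z = 2 / s n ^ 2 *
      ((∫ x, ψ x * ⨍ z in ball x (s n), χ z) - ∫ x, ψ x * χ x) := by
    intro n
    have h1 : (fun z => b n z) = fun z => 2 / s n ^ 2 *
        (χ z * (⨍ x in ball z (s n), ψ x) - ψ z * χ z) := funext (hb n)
    rw [h1, integral_const_mul, integral_sub (hi4 n) hi1, (FAT_swap χ ψ hχi hψi (s n)).2]
  have hdiff : ∀ ε : ℝ, 0 < ε → ∃ s0 : ℝ, 0 < s0 ∧ ∀ n, s n < s0 →
      |(∫ z, b n z) - ∫ x, ψ x * lap χ x| ≤ 2 * ε * ∫ x, ‖ψ x‖ := by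
    intro ε hε
    obtain ⟨s0, hs00, hs1⟩ := hAVG.2.2 χ hχ hχc ε hε
    refine ⟨s0, hs00, fun n hn => ?_⟩
    have hsn : 0 < s n ^ 2 := by
      have := hs0 n
      positivity
    have h1 : (∫ z, b n z) - ∫ x, ψ x * lap χ x =
        ∫ x, (2 / s n ^ 2 * (ψ x * (⨍ z in ball x (s n), χ z) - ψ x * χ x) - ψ x * lap χ x) := by
      have h0 : Integrable (fun x => 2 / s n ^ 2 *
          (ψ x * (⨍ z in ball x (s n), χ z) - ψ x * χ x)) := ((hi3 n).sub hi1).const_mul _
      rw [integral_sub h0 hi2, integral_const_mul, integral_sub (hi3 n) hi1, hI]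
    rw [h1, ← Real.norm_eq_abs]
    have h2 : 2 * ε * ∫ x, ‖ψ x‖ = ∫ x, 2 * ε * ‖ψ x‖ := by rw [integral_const_mul]
    rw [h2]
    refine norm_integral_le_of_norm_le (hψi.norm.const_mul _) (Eventually.of_forall fun x => ?_)
    have h3 := hs1 (s n) (hs0 n) hn x
    have h4 : 2 / s n ^ 2 * (ψ x * (⨍ z in ball x (s n), χ z) - ψ x * χ x) - ψ x * lap χ x =
        ψ x * (2 / s n ^ 2 * ((⨍ z in ball x (s n), χ z) - χ x - s n ^ 2 / 2 * lap χ x)) := by
      have hsn0 : s n ≠ 0 := (hs0 n).ne'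
      field_simp
    rw [h4, norm_mul, norm_mul, mul_comm (2 * ε)]
    refine mul_le_mul_of_nonneg_left ?_ (norm_nonneg _)
    rw [Real.norm_of_nonneg (by positivity : (0 : ℝ) ≤ 2 / s n ^ 2), Real.norm_eq_abs]
    calc 2 / s n ^ 2 * |(⨍ z in ball x (s n), χ z) - χ x - s n ^ 2 / 2 * lap χ x|
        ≤ 2 / s n ^ 2 * (ε * s n ^ 2) := mul_le_mul_of_nonneg_left h3 (by positivity)
      _ = 2 * ε := by
          have hsn0 : s n ≠ 0 := (hs0 n).ne'
          field_simp
  have hlim : Tendsto (fun n => ∫ z, b n z) atTop (𝓝 (∫ x, ψ x * lap χ x)) := by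
    rw [Metric.tendsto_atTop]
    intro ε hε
    have hP : 0 ≤ ∫ x, ‖ψ x‖ := integral_nonneg fun x => norm_nonneg _
    obtain ⟨s0, hs00, hs1⟩ := hdiff (ε / (4 * ((∫ x, ‖ψ x‖) + 1))) (by positivity)
    obtain ⟨n0, hn0⟩ := (Filter.eventually_atTop.1 (hst.eventually (gt_mem_nhds hs00)))
    refine ⟨n0, fun n hn => ?_⟩
    rw [Real.dist_eq]
    refine (hs1 n (hn0 n hn)).trans_lt ?_
    have h1 : 2 * (ε / (4 * ((∫ x, ‖ψ x‖) + 1))) * (∫ x, ‖ψ x‖) =
        ε / 2 * ((∫ x, ‖ψ x‖) / ((∫ x, ‖ψ x‖) + 1)) := by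
      field_simp
      ring
    rw [h1]
    have h2 : (∫ x, ‖ψ x‖) / ((∫ x, ‖ψ x‖) + 1) ≤ 1 := by
      rw [div_le_one (by linarith)]
      linarith
    nlinarith
  have hfin : ∫ x, ψ x * lap χ x = ∫ z, lap χ z * φ z := by
    refine integral_congr_ae (Eventually.of_forall fun z => ?_)
    show ψ z * lap χ z = lap χ z * φ z
    by_cases hz : z ∈ tsupport χ
    · rw [hψK z (hKK' hz), mul_comm]
    · rw [hlz z hz, mul_zero, zero_mul]
  -- Fatou
  have hfat := lintegral_liminf_le' (μ := (volume : Measure ℂ)) (u := atTop)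
    (f := fun n z => ENNReal.ofReal (b n z))
    (fun n => (hbi n).aestronglyMeasurable.aemeasurable.ennreal_ofReal)
  have hright : liminf (fun n => ∫⁻ z, ENNReal.ofReal (b n z)) atTop =
      ENNReal.ofReal (∫ z, lap χ z * φ z) := by
    have h1 : (fun n => ∫⁻ z, ENNReal.ofReal (b n z)) = fun n => ENNReal.ofReal (∫ z, b n z) := by
      funext n
      rw [ofReal_integral_eq_lintegral_ofReal (hbi n) (Eventually.of_forall (hb0 n))]
    rw [h1, ← hfin]
    exact ((ENNReal.continuous_ofReal.tendsto _).comp hlim).liminf_eq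
  rw [hright] at hfat
  refine le_trans (lintegral_mono fun z => ?_) hfat
  -- pointwise
  show ENNReal.ofReal (χ z * g z) ≤ liminf (fun n => ENNReal.ofReal (b n z)) atTop
  by_cases hz : z ∈ tsupport χ
  · have hstep : ∀ m : ℕ, ENNReal.ofReal (χ z * (g z - 1 / ((m : ℝ) + 1))) ≤
        liminf (fun n => ENNReal.ofReal (b n z)) atTop := by
      intro m
      obtain ⟨s0, hs00, hs1⟩ := hB z (hχΩ hz) (1 / ((m : ℝ) + 1)) (by positivity)
      refine le_liminf_of_le (by isBoundedDefault) ?_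
      filter_upwards [hst.eventually (gt_mem_nhds hs00)] with n hn
      apply ENNReal.ofReal_le_ofReal
      have h1 := hs1 (s n) (hs0 n) hn
      have hsn : 0 < s n ^ 2 := by
        have := hs0 n
        positivity
      rw [hb, havg z hz (s n) ((hsc n).trans_lt hcr), hψK z (hKK' hz)]
      have h4 : 2 / s n ^ 2 * (χ z * (⨍ x in ball z (s n), φ x) - φ z * χ z) =
          χ z * (2 / s n ^ 2 * ((⨍ x in ball z (s n), φ x) - φ z)) := by ring
      rw [h4]
      refine mul_le_mul_of_nonneg_left ?_ (hχ0 z)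
      have h5 : (g z - 1 / ((m : ℝ) + 1)) * s n ^ 2 / 2 ≤ (⨍ x in ball z (s n), φ x) - φ z := by
        linarith
      calc g z - 1 / ((m : ℝ) + 1) = 2 / s n ^ 2 * ((g z - 1 / ((m : ℝ) + 1)) * s n ^ 2 / 2) := by
            have hsn0 : s n ≠ 0 := (hs0 n).ne'
            field_simp
        _ ≤ 2 / s n ^ 2 * ((⨍ x in ball z (s n), φ x) - φ z) :=
            mul_le_mul_of_nonneg_left h5 (by positivity)
    have ht : Tendsto (fun m : ℕ => ENNReal.ofReal (χ z * (g z - 1 / ((m : ℝ) + 1)))) atTop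
        (𝓝 (ENNReal.ofReal (χ z * g z))) := by
      refine (ENNReal.continuous_ofReal.tendsto _).comp ?_
      have h2 := ((tendsto_one_div_add_atTop_nhds_zero_nat (𝕜 := ℝ)).const_sub (g z)).const_mul (χ z)
      rwa [sub_zero] at h2
    exact le_of_tendsto' ht hstep
  · rw [hχout z hz, zero_mul, ENNReal.ofReal_zero]
    exact bot_le

end Pool.Agent.P2I
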