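import Pool.Agent.helper37.P2.SpecD

/-!
# Row p2:MZP
-/

set_option autoImplicit false
set_option linter.unusedVariables false

open scoped ContDiff Topology
open MeasureTheory Filter Set Metric MvPolynomial Pool.Agent.helper37.QA

namespace Pool.Agent.P2

theorem MZP_tau0 {d : ℕ} (f : Endo 2 d) (N : ℕ) (Z : ℂ → E3) (z : ℂ) : 0 ≤ tau f N Z z := by
  unfold tau
  have h1 := Complex.normSq_nonneg (It f N (Z z) 1 * deriv (fun z => It f N (Z z) 0) z -
    It f N (Z z) 0 * deriv (fun z => It f N (Z z) 1) z)
  exact div_nonneg (div_nonneg (by linarith) (sq_nonneg _)) (by positivity)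

theorem MZP_eta : Continuous eta := by
  unfold eta
  exact Real.smoothTransition.continuous.comp
    (continuous_const.sub (continuous_const.mul Complex.continuous_normSq))

theorem MZP_sub : {z : ℂ | eta z ≠ 0} ⊆ ball (0 : ℂ) 1 := by
  intro z hz
  by_contra hcon
  apply hz
  have h1 : 1 ≤ ‖z‖ := by
    rw [mem_ball_zero_iff, not_lt] at hcon
    exact hcon
  unfold eta
  apply Real.smoothTransition.zero_of_nonpos
  rw [Complex.normSq_eq_norm_sq]
  nlinarith

/-- Row MZP -/
theorem MZP (hUN1 : UN1_stmt) (hMSS : MSS_stmt) : MZP_stmt := by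
  intro d f U N Z hd hG hD hm
  have hopen : IsOpen {z : ℂ | eta z ≠ 0} := isOpen_ne_fun MZP_eta continuous_const
  have hint : Integrable (fun z => eta z ^ 2 * tau f N Z z) := by
    by_contra hcon
    have h1 : mass f N Z = 0 := by
      unfold mass
      exact integral_undef hcon
    exact hm.ne' h1
  refine ⟨⟨?_⟩, ?_, MZP_sub, hopen.measurableSet⟩
  · unfold mz
    rw [withDensity_apply _ MeasurableSet.univ, Measure.restrict_univ,
      ← ofReal_integral_eq_lintegral_ofReal (hint.div_const _)
        (Eventually.of_forall fun z => div_nonneg (mul_nonneg (sq_nonneg _) (MZP_tau0 f N Z z)) hm.le),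
      integral_div]
    have h1 : (∫ z, eta z ^ 2 * tau f N Z z) = mass f N Z := rfl
    rw [h1, div_self hm.ne', ENNReal.ofReal_one]
  · unfold mz
    rw [withDensity_apply _ hopen.measurableSet.compl]
    have h1 : ∀ z ∈ {z : ℂ | eta z ≠ 0}ᶜ,
        ENNReal.ofReal (eta z ^ 2 * tau f N Z z / mass f N Z) = 0 := by
      intro z hz
      have h2 : eta z = 0 := by
        by_contra h3
        exact hz h3
      rw [h2]
      simp
    rw [setLIntegral_congr_fun hopen.measurableSet.compl h1]
    simp

end Pool.Agent.P2
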